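import Pool.Agent.D0H61.AB.Stm

/-! The measure of the numbers `α` such that `α b + s` and `α b' + s` are both within 1 of a multiple of `2 ^ k`. -/

set_option autoImplicit false

namespace Pool.Agent.D0H22.AB

open MeasureTheory Finset

theorem vol_le (b s q : ℝ) (hb : 0 < b) :
    volume {α : ℝ | |α * b + s - q| ≤ 1} ≤ ENNReal.ofReal (2 / b) := by
  have h1 : {α : ℝ | |α * b + s - q| ≤ 1} ⊆ Set.Icc ((q - s - 1) / b) ((q - s + 1) / b) := by
    intro α hα
    have h2 := abs_le.1 (show |α * b + s - q| ≤ 1 from hα)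
    constructor
    · rw [div_le_iff₀ hb]; linarith [h2.1]
    · rw [le_div_iff₀ hb]; linarith [h2.2]
  refine (measure_mono h1).trans ?_
  rw [Real.volume_Icc]
  apply ENNReal.ofReal_le_ofReal
  apply le_of_eq
  rw [← sub_div]
  congr 1
  ring

/-- the integers in an interval -/
theorem card_le (A B : ℝ) (h : A ≤ B + 1) : (((Finset.Icc ⌈A⌉ ⌊B⌋).card : ℕ) : ℝ) ≤ B - A + 1 := by
  rw [Int.card_Icc]
  have h1 : (⌊B⌋ : ℝ) ≤ B := Int.floor_le B
  have h2 : A ≤ (⌈A⌉ : ℝ) := Int.le_ceil A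
  rcases le_total 0 (⌊B⌋ + 1 - ⌈A⌉) with h0 | h0
  · have h3 : (((⌊B⌋ + 1 - ⌈A⌉).toNat : ℕ) : ℝ) = ((⌊B⌋ + 1 - ⌈A⌉ : ℤ) : ℝ) := by
      exact_mod_cast congrArg (Int.cast : ℤ → ℝ) (Int.toNat_of_nonneg h0)
    rw [h3]
    push_cast
    linarith
  · rw [Int.toNat_of_nonpos h0]
    simp only [Nat.cast_zero]
    linarith

theorem core (g u v : ℕ) (hg0 : 0 < g) (hu : 0 < u) (hv : 0 < v) (hcop : Nat.Coprime u v) (q s x y M : ℝ) (hq : 2 ≤ q)
    (hxy : x < y) (h : q ≤ (y - x) * g) (hM : M = max ((g : ℝ) * u) (g * v)) :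
    volume (Set.Icc x y ∩ {α : ℝ | ∃ c : ℤ, |α * (g * u) + s - q * c| ≤ 1} ∩
      {α : ℝ | ∃ c : ℤ, |α * (g * v) + s - q * c| ≤ 1}) ≤
      ENNReal.ofReal (24 * (y - x) * ((1 / q) * (g / M) + (1 / q) ^ 2)) := by
  have hgR : (0 : ℝ) < g := by exact_mod_cast hg0
  have huR : (0 : ℝ) < u := by exact_mod_cast hu
  have hvR : (0 : ℝ) < v := by exact_mod_cast hv
  have hu1 : (1 : ℝ) ≤ u := by exact_mod_cast hu
  have hq0 : (0 : ℝ) < q := by linarith
  have hMu : (g : ℝ) * u ≤ M := by rw [hM]; exact le_max_left _ _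
  have hMv : (g : ℝ) * v ≤ M := by rw [hM]; exact le_max_right _ _
  have hM0 : 0 < M := lt_of_lt_of_le (by positivity) hMu
  set I : ℤ × ℤ → Set ℝ := fun p => {α : ℝ | |α * (g * u) + s - q * p.1| ≤ 1 ∧ |α * (g * v) + s - q * p.2| ≤ 1} with hI
  have hvol : ∀ p, volume (I p) ≤ ENNReal.ofReal (2 / M) := by
    intro p
    rcases le_total ((g : ℝ) * u) (g * v) with h1 | h1
    · rw [hM, max_eq_right h1]
      exact (measure_mono (fun α hα => hα.2)).trans (vol_le _ s (q * p.2) (by positivity))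
    · rw [hM, max_eq_left h1]
      exact (measure_mono (fun α hα => hα.1)).trans (vol_le _ s (q * p.1) (by positivity))
  set S : Set (ℤ × ℤ) := {p | ∃ α ∈ Set.Icc x y, α ∈ I p} with hS
  set A : ℝ := (((v : ℝ) - u) * s - (u + v)) / q with hA
  set B : ℝ := (((v : ℝ) - u) * s + (u + v)) / q with hB
  set a : ℝ := (x * (g * u) + s - 1) / q with ha
  set L : ℝ := (((y - x) * (g * u) + 2) / q) / u with hL
  set φ : ℤ × ℤ → ℤ × ℤ := fun p => ((v : ℤ) * p.1 - u * p.2, ⌊((p.1 : ℝ) - a) / u⌋) with hφ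
  set J : Finset (ℤ × ℤ) := (Finset.Icc ⌈A⌉ ⌊B⌋) ×ˢ (Finset.Icc ⌈(0 : ℝ)⌉ ⌊L⌋) with hJ
  have hmaps : ∀ p ∈ S, φ p ∈ J := by
    rintro p ⟨α, hα, h1, h2⟩
    have h3 := abs_le.1 h1
    have h4 := abs_le.1 h2
    have hx1 : x * (g * u) ≤ α * (g * u) := mul_le_mul_of_nonneg_right hα.1 (by positivity)
    have hx2 : α * (g * u) ≤ y * (g * u) := mul_le_mul_of_nonneg_right hα.2 (by positivity)
    -- the bounds for m
    have h5 : (v : ℝ) * (α * (g * u) + s - q * p.1) - u * (α * (g * v) + s - q * p.2) =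
        ((v : ℝ) - u) * s - q * ((v : ℝ) * p.1 - u * p.2) := by ring
    have h6 : (v : ℝ) * (α * (g * u) + s - q * p.1) ≤ v * 1 := mul_le_mul_of_nonneg_left h3.2 hvR.le
    have h7 : (v : ℝ) * (-1) ≤ v * (α * (g * u) + s - q * p.1) := mul_le_mul_of_nonneg_left h3.1 hvR.le
    have h8 : (u : ℝ) * (α * (g * v) + s - q * p.2) ≤ u * 1 := mul_le_mul_of_nonneg_left h4.2 huR.le
    have h9 : (u : ℝ) * (-1) ≤ u * (α * (g * v) + s - q * p.2) := mul_le_mul_of_nonneg_left h4.1 huR.le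
    rw [hJ, Finset.mem_product, Finset.mem_Icc, Finset.mem_Icc]
    refine ⟨⟨?_, ?_⟩, ⟨?_, ?_⟩⟩
    · rw [Int.ceil_le]
      simp only [hφ]
      push_cast
      rw [hA, div_le_iff₀ hq0]
      linarith
    · rw [Int.le_floor]
      simp only [hφ]
      push_cast
      rw [hB, le_div_iff₀ hq0]
      linarith
    · simp only [hφ]
      rw [Int.ceil_zero, Int.floor_nonneg]
      refine div_nonneg ?_ huR.le
      rw [sub_nonneg, ha, div_le_iff₀ hq0]
      linarith
    · simp only [hφ]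
      refine Int.floor_le_floor ?_
      rw [hL]
      refine div_le_div_of_nonneg_right ?_ huR.le
      rw [sub_le_iff_le_add, ha, ← add_div, le_div_iff₀ hq0]
      linarith
  have hinj : Set.InjOn φ S := by
    rintro ⟨c, c'⟩ _ ⟨d, d'⟩ _ he
    simp only [hφ, Prod.mk.injEq] at he
    obtain ⟨h1, h2⟩ := he
    have h3 : (v : ℤ) * (c - d) = u * (c' - d') := by linarith
    have h4 : (u : ℤ) ∣ c - d := by
      have h5 : (u : ℤ) ∣ v * (c - d) := ⟨c' - d', h3⟩
      exact (Nat.isCoprime_iff_coprime.2 hcop).dvd_of_dvd_mul_left h5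
    have h5 : c = d := by
      obtain ⟨j, hj⟩ := h4
      have h6 : ((c : ℝ) - a) / u = ((d : ℝ) - a) / u + j := by
        have h7 : (c : ℝ) - d = u * j := by exact_mod_cast congrArg (Int.cast : ℤ → ℝ) hj
        rw [div_add' _ _ _ huR.ne']
        congr 1
        linarith
      rw [h6, Int.floor_add_intCast] at h2
      have h8 : j = 0 := by linarith
      rw [h8, mul_zero] at hj
      linarith
    have h6 : c' = d' := by
      rw [h5, sub_self, mul_zero] at h3
      have h7 : (u : ℤ) ≠ 0 := by exact_mod_cast hu.ne'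
      rcases mul_eq_zero.1 h3.symm with h8 | h8
      · exact absurd h8 h7
      · linarith
    rw [h5, h6]
  have hfin : S.Finite := Set.Finite.of_injOn (t := (J : Set (ℤ × ℤ))) (fun p hp => hmaps p hp) hinj J.finite_toSet
  have hcard : hfin.toFinset.card ≤ J.card := by
    refine Finset.card_le_card_of_injOn φ (fun p hp => ?_) ?_
    · exact hmaps p (hfin.mem_toFinset.1 hp)
    · rw [Set.Finite.coe_toFinset]
      exact hinj
  have hsub : Set.Icc x y ∩ {α : ℝ | ∃ c : ℤ, |α * (g * u) + s - q * c| ≤ 1} ∩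
      {α : ℝ | ∃ c : ℤ, |α * (g * v) + s - q * c| ≤ 1} ⊆ ⋃ p ∈ hfin.toFinset, I p := by
    rintro α ⟨⟨hα, c, hc⟩, c', hc'⟩
    have h1 : α ∈ I (c, c') := ⟨hc, hc'⟩
    exact Set.mem_biUnion (hfin.mem_toFinset.2 ⟨α, hα, h1⟩) h1
  have hJc : (J.card : ℝ) ≤ (2 * (u + v) / q + 1) * (3 * ((y - x) * g / q)) := by
    rw [hJ, Finset.card_product, Nat.cast_mul]
    have hBA : B - A = 2 * (u + v) / q := by
      rw [hA, hB, ← sub_div]
      congr 1
      ring
    have h1 : 0 ≤ B - A := by rw [hBA]; positivity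
    have hyx : 0 < y - x := by linarith
    have h2 : L ≤ (y - x) * g / q + 1 := by
      rw [hL, div_div, div_le_iff₀ (by positivity)]
      have h3 : ((y - x) * g / q + 1) * (q * u) = (y - x) * (g * u) + q * u := by
        field_simp
      rw [h3]
      nlinarith
    have h3 : 0 ≤ L := by rw [hL]; positivity
    have h4 : (1 : ℝ) ≤ (y - x) * g / q := by rw [le_div_iff₀ hq0]; linarith
    refine mul_le_mul ((card_le A B (by linarith)).trans (by rw [hBA])) ((card_le 0 L (by linarith)).trans ?_)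
      (Nat.cast_nonneg _) (by positivity)
    linarith
  calc volume (Set.Icc x y ∩ {α : ℝ | ∃ c : ℤ, |α * (g * u) + s - q * c| ≤ 1} ∩
      {α : ℝ | ∃ c : ℤ, |α * (g * v) + s - q * c| ≤ 1})
      ≤ volume (⋃ p ∈ hfin.toFinset, I p) := measure_mono hsub
    _ ≤ ∑ p ∈ hfin.toFinset, volume (I p) := measure_biUnion_finset_le _ _
    _ ≤ ∑ p ∈ hfin.toFinset, ENNReal.ofReal (2 / M) := Finset.sum_le_sum fun p _ => hvol p
    _ = ENNReal.ofReal ((hfin.toFinset.card : ℝ) * (2 / M)) := by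
        rw [Finset.sum_const, nsmul_eq_mul, ENNReal.ofReal_mul (Nat.cast_nonneg _), ENNReal.ofReal_natCast]
    _ ≤ ENNReal.ofReal (24 * (y - x) * ((1 / q) * (g / M) + (1 / q) ^ 2)) := by
        apply ENNReal.ofReal_le_ofReal
        have hyx : 0 < y - x := by linarith
        have h1 : (hfin.toFinset.card : ℝ) ≤ (2 * (u + v) / q + 1) * (3 * ((y - x) * g / q)) :=
          le_trans (by exact_mod_cast hcard) hJc
        refine (mul_le_mul_of_nonneg_right h1 (by positivity)).trans ?_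
        have h2 : (2 * (u + v) / q + 1) * (3 * ((y - x) * g / q)) * (2 / M) =
            6 * (y - x) * ((1 / q) * (g / M)) + 12 * (y - x) * (1 / q) ^ 2 * ((g * u + g * v) / M) := by
          field_simp
          ring
        rw [h2]
        have h3 : ((g : ℝ) * u + g * v) / M ≤ 2 := by
          rw [div_le_iff₀ hM0]
          linarith
        have h4 : 12 * (y - x) * (1 / q) ^ 2 * (((g : ℝ) * u + g * v) / M) ≤ 12 * (y - x) * (1 / q) ^ 2 * 2 :=
          mul_le_mul_of_nonneg_left h3 (by positivity)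
        have h5 : 0 ≤ (y - x) * ((1 / q) * ((g : ℝ) / M)) := by positivity
        nlinarith

theorem t_OVL : Pool.Agent.D0H61.AB.S_OVL := by
  refine ⟨24, by norm_num, ?_⟩
  intro k s x y b b' hk hxy hb hb' hg
  obtain ⟨u, v, hcop, hu, hv⟩ := Nat.exists_coprime b b'
  have hg0 : 0 < Nat.gcd b b' := Nat.gcd_pos_of_pos_left _ hb
  have hu0 : 0 < u := Nat.pos_of_ne_zero fun h => by rw [h, zero_mul] at hu; omega
  have hv0 : 0 < v := Nat.pos_of_ne_zero fun h => by rw [h, zero_mul] at hv; omega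
  have hbR : (b : ℝ) = (Nat.gcd b b' : ℝ) * u := by
    rw [mul_comm]
    exact_mod_cast congrArg (Nat.cast : ℕ → ℝ) hu
  have hbR' : (b' : ℝ) = (Nat.gcd b b' : ℝ) * v := by
    rw [mul_comm]
    exact_mod_cast congrArg (Nat.cast : ℕ → ℝ) hv
  have hq : (2 : ℝ) ≤ 2 ^ k := by
    calc (2 : ℝ) = 2 ^ 1 := by norm_num
      _ ≤ 2 ^ k := pow_le_pow_right₀ (by norm_num) (by omega)
  have h1 := core (Nat.gcd b b') u v hg0 hu0 hv0 hcop (2 ^ k) s x y ((max b b' : ℕ) : ℝ) hq hxy hg (by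
    rw [Nat.cast_max, ← hbR, ← hbR'])
  rw [← hbR, ← hbR'] at h1
  exact h1

end Pool.Agent.D0H22.AB
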